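import Mathlib

set_option autoImplicit false

namespace Pool.Agent.Results.MP_6f811f_co.Balanced

open Finset SimpleGraph

theorem count (r : ℕ) (T : Finset (Fin r × Fin (r + 1))) (h1 : ∀ i, ∃ c, (i, c) ∈ T)
    (h2 : ∀ σ : Fin r ↪ Fin (r + 1), ∃ i, (i, σ i) ∈ T) : 2 * r ≤ T.card := by
  have : ¬ ∀ I : Finset (Fin r), I.card ≤ (I.biUnion fun i => {c | (i, c) ∉ T}).card := fun h => by
    obtain ⟨σ, a, b⟩ := (all_card_le_biUnion_card_iff_exists_injective _).mp h
    obtain ⟨i, hi⟩ := h2 ⟨σ, a⟩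
    exact (mem_filter.mp (b i)).2 hi
  push Not at this
  obtain ⟨I, hI⟩ := this
  set N : Finset (Fin (r + 1)) := I.biUnion fun i => {c | (i, c) ∉ T} with hN
  choose f hf using h1
  have s : I ×ˢ Nᶜ ∪ Iᶜ.image (fun i => (i, f i)) ⊆ T := fun p hp => by
    rcases mem_union.mp hp with h | h
    · by_contra k
      rw [mem_product, mem_compl] at h
      exact h.2 (mem_biUnion.mpr ⟨p.1, h.1, by simpa using k⟩)
    · obtain ⟨i, -, rfl⟩ := mem_image.mp h
      exact hf i
  have := card_le_card s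
  rw [card_union_of_disjoint (disjoint_left.mpr fun p a b => by
    obtain ⟨i, hi, rfl⟩ := mem_image.mp b
    exact mem_compl.mp hi (mem_product.mp a).1), card_product,
    card_image_of_injective _ fun a b h => (Prod.mk.inj h).1, card_compl, card_compl,
    Fintype.card_fin, Fintype.card_fin] at this
  have a1 : I.card ≤ r := by simpa using card_le_univ I
  generalize I.card = a at *
  generalize N.card = b at *
  obtain ⟨k, hk⟩ := Nat.exists_eq_add_of_le a1
  obtain ⟨j, rfl⟩ := Nat.exists_eq_add_of_lt hI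
  rw [show r + 1 - b = j + k + 2 by omega, show r - (b + j + 1) = k by omega] at this
  nlinarith [Nat.zero_le (b * (j + k)), Nat.zero_le (j * (j + k))]

theorem result (r n : ℕ) (hr : 2 ≤ r) (hn : r.factorial ≤ n) :
    ∃ c : Fin n → Fin n → Fin r, ∀ (m : ℕ)
      (T : Fin m → (completeBipartiteGraph (Fin n) (Fin n)).Subgraph),
      (∀ t, (T t).coe.IsTree ∧ ∃ k, ∀ a b, (T t).Adj (.inl a) (.inr b) → c a b = k) →
      (∀ v, ∃ t, v ∈ (T t).verts) → 2 * r - 2 ≤ m := by
  obtain ⟨r, rfl⟩ : ∃ s, r = s + 1 := ⟨r - 1, by omega⟩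
  have i0 : Fin r := ⟨0, by omega⟩
  have e0 : Fin r ↪ Fin (r + 1) := ⟨_, Fin.castSucc_injective r⟩
  obtain ⟨p, hp⟩ : ∃ p : Fin n → Fin r, Function.Surjective p := by
    obtain ⟨e⟩ := Function.Embedding.nonempty_of_card_le (α := Fin r) (β := Fin n)
      (by simpa using ((Nat.le_succ r).trans (Nat.self_le_factorial _)).trans hn)
    have : Nonempty (Fin r) := ⟨i0⟩
    exact ⟨_, Function.invFun_surjective e.injective⟩
  obtain ⟨q, hq⟩ : ∃ q : Fin n → Fin r ↪ Fin (r + 1), Function.Surjective q := by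
    obtain ⟨e⟩ := Function.Embedding.nonempty_of_card_le (α := Fin r ↪ Fin (r + 1)) (β := Fin n)
      (by simpa [Nat.descFactorial_self, ← Nat.succ_descFactorial_succ, Nat.descFactorial_of_lt,
        Nat.descFactorial_eq_div] using hn)
    have : Nonempty (Fin r ↪ Fin (r + 1)) := ⟨e0⟩
    exact ⟨_, Function.invFun_surjective e.injective⟩
  refine ⟨fun a b => q b (p a), fun m T h1 h2 => ?_⟩
  have key : ∀ t, ∃ z : Fin r × Fin (r + 1), ∀ v ∈ (T t).verts,
      Sum.elim (fun a => p a = z.1) (fun b => q b z.1 = z.2) v := fun t => by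
    obtain ⟨tr, k, hk⟩ := h1 t
    have al : ∀ Q : Fin n ⊕ Fin n → Prop, (∀ x y, (T t).Adj x y → Q x → Q y) →
        ∀ v ∈ (T t).verts, Q v → ∀ y ∈ (T t).verts, Q y := fun Q hQ v hv h y hy => by
      have : ∀ w, Relation.ReflTransGen (T t).coe.Adj ⟨v, hv⟩ w → Q w := fun w hw => by
        induction hw with
        | refl => exact h
        | tail _ e ih => exact hQ _ _ e ih
      exact this _ ((reachable_iff_reflTransGen _ _).mp (tr.1.preconnected ⟨v, hv⟩ ⟨y, hy⟩))
    by_cases ex : ∃ a, .inl a ∈ (T t).verts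
    · obtain ⟨a, ha⟩ := ex
      refine ⟨(p a, k), al _ ?_ _ ha rfl⟩
      rintro (x | x) (y | y) h e
      · simpa using (T t).adj_sub h
      · exact e ▸ hk _ _ h
      · exact (q x).injective ((hk _ _ h.symm).trans e.symm)
      · simpa using (T t).adj_sub h
    · obtain ⟨⟨a | b, hv⟩⟩ := tr.1.nonempty
      · exact (ex ⟨a, hv⟩).elim
      refine ⟨(i0, q b i0), fun y hy => ?_⟩
      obtain rfl := al (· = .inr b) (by
        rintro (x | x) (y | y) h e
        · cases e
        · cases e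
        · exact (ex ⟨y, h.snd_mem⟩).elim
        · simpa using (T t).adj_sub h) _ hv rfl y hy
      rfl
  choose z hz using key
  have := count r (univ.image z) (fun i => by
    obtain ⟨a, rfl⟩ := hp i
    obtain ⟨t, ht⟩ := h2 (.inl a)
    exact ⟨(z t).2, mem_image.mpr ⟨t, mem_univ _, Prod.ext (hz t _ ht).symm rfl⟩⟩) fun σ => by
    obtain ⟨b, rfl⟩ := hq σ
    obtain ⟨t, ht⟩ := h2 (.inr b)
    exact ⟨(z t).1, mem_image.mpr ⟨t, mem_univ _, Prod.ext rfl (hz t _ ht).symm⟩⟩
  have := this.trans card_image_le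
  simp only [card_univ, Fintype.card_fin] at this
  omega

end Pool.Agent.Results.MP_6f811f_co.Balanced
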